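import Pool.Agent.WAQ.StmtsL

/-!
# WAQ, row DGN: digits
-/

set_option autoImplicit false

namespace Pool.Agent.WAQ.H27

open Classical Polynomial WeierstrassCurve.Affine

section

variable [Par] {F : Type} [NormedField F] {d : F}

theorem dgn_add_sm (a b : ℤ) (P : Pt d) : sm (a + b) P = sm a P + sm b P :=
  by rw [sm_def, sm_def, sm_def, add_smul]

theorem dgn_mul_sm (a b : ℤ) (P : Pt d) : sm (a * b) P = sm a (sm b P) :=
  by rw [sm_def, sm_def, sm_def, mul_smul]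

theorem dgn_zero_sm (P : Pt d) : sm (0 : ℤ) P = 0 := by
  rw [sm_def, zero_smul]

theorem dgn_one_sm (P : Pt d) : sm (1 : ℤ) P = P := by
  rw [sm_def, one_smul]

variable {ϖ : ℤ}

theorem dgn_q_pos (hF : IsLoc F ϖ) : 0 < qn F ϖ := hF.uni

theorem dgn_q_lt (hF : IsLoc F ϖ) : qn F ϖ < 1 := (hF.lt_one ϖ).2 dvd_rfl

theorem dgn_le_q (hF : IsLoc F ϖ) {x : F} (hx : ‖x‖ < 1) : ‖x‖ ≤ qn F ϖ := by
  by_cases h0 : x = 0
  · rw [h0, norm_zero]
    exact (dgn_q_pos hF).le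
  · obtain ⟨n, hn⟩ := hF.val x h0
    have hq := dgn_q_pos hF
    have hq1 := dgn_q_lt hF
    rw [hn] at hx ⊢
    have hn1 : 1 ≤ n := by
      by_contra hc
      have h2 : n ≤ 0 := by omega
      have h3 : (1 : ℝ) ≤ ‖am F ϖ‖ ^ n :=
        one_le_zpow_of_nonpos₀ hq hq1.le h2
      linarith
    have h4 : ‖am F ϖ‖ ^ n ≤ ‖am F ϖ‖ ^ (1 : ℤ) :=
      zpow_le_zpow_right_of_le_one₀ hq hq1.le hn1
    rw [zpow_one] at h4
    exact h4

theorem dgn_norm_unit (hF : IsLoc F ϖ) {a : ℤ} (ha : ¬ ϖ ∣ a) :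
    ‖am F a‖ = 1 := by
  refine le_antisymm (hF.int a) ?_
  by_contra hc
  exact ha ((hF.lt_one a).1 (not_le.1 hc))

theorem dgn_ultra3 (hF : IsLoc F ϖ) {x y z : F} {c : ℝ} (hx : ‖x‖ ≤ c) (hy : ‖y‖ ≤ c)
    (hz : ‖z‖ ≤ c) : ‖x - y - z‖ ≤ c := by
  have h1 := hF.ultra (x - y) (-z)
  have h2 := hF.ultra x (-y)
  rw [norm_neg] at h1 h2
  rw [← sub_eq_add_neg] at h1 h2
  exact h1.trans (max_le (h2.trans (max_le hx hy)) hz)

end

theorem dgn [Par] (zal : ZalStmt) (zsl : ZslStmt) (zlv : ZlvStmt) : DgnStmt := by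
  intro F _ ϖ hF d hd E R N0 ρ hE hR hRE hN0 hρ
  obtain ⟨l1, l2, l3, l4, l5, l6, l7, l8⟩ := zlv F ϖ hF d hd
  have hq := dgn_q_pos hF
  have hq1 := dgn_q_lt hF
  by_cases hE0 : E = 0
  · have hz : zs E = 0 := by rw [hE0, zs_zero]
    rw [hz, norm_zero] at hRE
    have hR0 : zs R = 0 := norm_le_zero_iff.1 hRE
    rw [l3 R hR] at hR0
    refine ⟨0, dvd_zero _, ?_⟩
    rw [dgn_zero_sm, hR0, sub_zero]
    refine ⟨Or.inl rfl, ?_⟩
    rw [zs_zero, norm_zero]
    exact hρ.le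
  · have hzE : 0 < ‖zs E‖ := by
      rw [norm_pos_iff]
      intro h
      exact hE0 ((l3 E hE).1 h)
    have hEk : ∀ k : ℕ, Big 1 (sm (ϖ ^ k) E) ∧ ‖zs (sm (ϖ ^ k) E)‖ = qn F ϖ ^ k * ‖zs E‖ := by
      intro k
      induction k with
      | zero =>
        rw [pow_zero, dgn_one_sm, pow_zero, one_mul]
        exact ⟨hE, rfl⟩
      | succ k ih =>
        rw [pow_succ', dgn_mul_sm]
        refine ⟨(zsl F ϖ hF d hd ϖ _ ih.1).1, ?_⟩
        rw [l5 _ ih.1, ih.2, pow_succ']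
        ring
    have key : ∀ k : ℕ, ∃ a : ℤ, N0 ∣ a ∧ Big 1 (R - sm a E) ∧
        ‖zs (R - sm a E)‖ ≤ qn F ϖ ^ k * ‖zs E‖ := by
      intro k
      induction k with
      | zero =>
        refine ⟨0, dvd_zero _, ?_⟩
        rw [dgn_zero_sm, sub_zero, pow_zero, one_mul]
        exact ⟨hR, hRE⟩
      | succ k ih =>
        obtain ⟨a, ha, hB, hle⟩ := ih
        obtain ⟨hkB, hkz⟩ := hEk k
        set Ek : Pt d := sm (ϖ ^ k) E with hEkdef
        set Rk : Pt d := R - sm a E with hRkdef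
        set r : ℝ := ‖zs Ek‖ with hrdef
        have hr : 0 < r := by
          rw [hkz]
          positivity
        have hzk : zs Ek ≠ 0 := norm_pos_iff.1 hr
        have hEk0 : Ek ≠ 0 := fun h => hzk (by rw [h, zs_zero])
        rw [← hkz] at hle
        have hn1 := dgn_norm_unit hF hN0
        have hN : am F N0 ≠ 0 := by
          rw [← norm_pos_iff, hn1]
          exact one_pos
        have hv : ‖zs Rk / zs Ek / am F N0‖ ≤ 1 := by
          rw [norm_div, norm_div, hn1, div_one]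
          exact (div_le_one hr).2 hle
        obtain ⟨b, hb⟩ := hF.res _ hv
        have hb' := dgn_le_q hF hb
        have h1 : ‖zs Rk - am F (N0 * b) * zs Ek‖ ≤ qn F ϖ * r := by
          have e : zs Rk - am F (N0 * b) * zs Ek =
              am F N0 * (zs Rk / zs Ek / am F N0 -
                am F b) * zs Ek := by
            rw [map_mul]
            field_simp
          rw [e, norm_mul, norm_mul, hn1, one_mul]
          exact mul_le_mul_of_nonneg_right hb' hr.le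
        obtain ⟨hSB, hS⟩ := zsl F ϖ hF d hd (N0 * b) Ek hkB
        have h8 := l8 Ek hEk0 hkB
        have herr : ‖d‖ ^ 2 * r ^ 5 ≤ qn F ϖ * r := by
          have h9 : (‖d‖ * r ^ 2) ^ 2 ≤ qn F ϖ ^ 2 :=
            pow_le_pow_left₀ (by positivity) h8 2
          have h10 : qn F ϖ ^ 2 ≤ qn F ϖ := by nlinarith
          calc ‖d‖ ^ 2 * r ^ 5 = (‖d‖ * r ^ 2) ^ 2 * r := by ring
            _ ≤ qn F ϖ * r := mul_le_mul_of_nonneg_right (h9.trans h10) hr.le
        have hLR : Lev r Rk := ⟨hB, hle⟩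
        have hLS : Lev r (sm (N0 * b) Ek) := l2 r (N0 * b) Ek ⟨hkB, le_rfl⟩
        obtain ⟨-, -, hLD⟩ := l1 r Rk (sm (N0 * b) Ek) hLR hLS
        have hz := (zal F ϖ hF d hd (Rk - sm (N0 * b) Ek) (sm (N0 * b) Ek) hLD.1 hSB).2
        rw [sub_add_cancel] at hz
        have hmax : max ‖zs (Rk - sm (N0 * b) Ek)‖ ‖zs (sm (N0 * b) Ek)‖ ≤ r :=
          max_le hLD.2 hLS.2
        have hz2 : ‖zs Rk - zs (Rk - sm (N0 * b) Ek) - zs (sm (N0 * b) Ek)‖ ≤ qn F ϖ * r := by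
          refine hz.trans (le_trans ?_ herr)
          refine mul_le_mul_of_nonneg_left (pow_le_pow_left₀ (by positivity) hmax 5) (by positivity)
        have hS2 : ‖zs (sm (N0 * b) Ek) - am F (N0 * b) * zs Ek‖ ≤
            qn F ϖ * r := hS.trans herr
        have hfin : ‖zs (Rk - sm (N0 * b) Ek)‖ ≤ qn F ϖ * r := by
          have h11 := dgn_ultra3 hF h1 hS2 hz2
          have e : zs Rk - am F (N0 * b) * zs Ek -
              (zs (sm (N0 * b) Ek) - am F (N0 * b) * zs Ek) -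
              (zs Rk - zs (Rk - sm (N0 * b) Ek) - zs (sm (N0 * b) Ek)) =
              zs (Rk - sm (N0 * b) Ek) := by ring
          rw [e] at h11
          exact h11
        refine ⟨a + N0 * b * ϖ ^ k, dvd_add ha (Dvd.intro (b * ϖ ^ k) (by ring)), ?_⟩
        have e2 : R - sm (a + N0 * b * ϖ ^ k) E = Rk - sm (N0 * b) Ek := by
          rw [dgn_add_sm, dgn_mul_sm, hRkdef, hEkdef]
          abel
        rw [e2]
        refine ⟨hLD.1, ?_⟩
        rw [pow_succ', mul_assoc, ← hkz]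
        exact hfin
    obtain ⟨k, hk⟩ := exists_pow_lt_of_lt_one (div_pos hρ hzE) hq1
    obtain ⟨a, ha, hB, hle⟩ := key k
    refine ⟨a, ha, hB, hle.trans ?_⟩
    have := (lt_div_iff₀ hzE).1 hk
    exact this.le

end Pool.Agent.WAQ.H27
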