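import Pool.Agent.WAQ.StmtsT

/-!
# Squad WAQ, row SMN: multiples near the origin
-/

set_option autoImplicit false

namespace Pool.Agent.WAQ.H27

open Pool.Agent.WAQ Classical

section
variable [Par] {F : Type} [NormedField F] {d : F}

theorem smn_big_zero (N : ℝ) : Big N (0 : Pt d) := Or.inl rfl

theorem smn_cX_neg (P : Pt d) : cX (-P) = cX P := by
  rcases P with _ | ⟨x, y, h⟩
  · rfl
  · rfl

theorem smn_big_neg {N : ℝ} {P : Pt d} (h : Big N P) : Big N (-P) := by
  rcases h with h | h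
  · left
    rw [h, neg_zero]
  · right
    rwa [smn_cX_neg]

end

theorem smn_nat [Par] (adn : AdnStmt) {F : Type} [NormedField F]
    (hF : GoodF F) {d : F} (hd : d ≠ 0) (n : ℕ) :
    ∀ N : ℝ, ∃ N' : ℝ, ∀ p : Pt d, Big N' p → Big N (n • p) := by
  induction n with
  | zero =>
    intro N
    refine ⟨0, fun p _ => ?_⟩
    rw [zero_smul]
    exact smn_big_zero N
  | succ n ih =>
    intro N
    obtain ⟨N1, h1⟩ := adn F hF d hd N
    obtain ⟨N2, h2⟩ := ih N1
    refine ⟨max N1 N2, fun p hp => ?_⟩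
    have hp1 : Big N1 p := hp.imp id fun h => lt_of_le_of_lt (le_max_left _ _) h
    have hp2 : Big N2 p := hp.imp id fun h => lt_of_le_of_lt (le_max_right _ _) h
    rw [succ_nsmul]
    exact h1 _ _ (h2 p hp2) hp1

/-- **SMN** -/
theorem smn [Par] (adn : AdnStmt) : SmnStmt := by
  intro F _ hF d hd n N
  obtain ⟨m, rfl | rfl⟩ := n.eq_nat_or_neg
  · obtain ⟨N', h⟩ := smn_nat adn hF hd m N
    refine ⟨N', fun p hp => ?_⟩
    rw [sm_def, natCast_zsmul]
    exact h p hp
  · obtain ⟨N', h⟩ := smn_nat adn hF hd m N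
    refine ⟨N', fun p hp => ?_⟩
    rw [sm_def, neg_smul, natCast_zsmul]
    exact smn_big_neg (h p hp)

end Pool.Agent.WAQ.H27
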